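import Pool.Agent.Helper98.TQ.Defs
import Pool.Agent.Helper11.QU.P3

/-!
# TOWERS, quadric cones, TQ1: the ideal of the coefficients of the product of the Gram minors of
three generic vectors
-/

set_option autoImplicit false

namespace Pool.Agent.Helper45.TQ

open MvPolynomial Pool.Agent.Helper49.QU Pool.Agent.Helper98.TQ

/-- evaluation of the product of the Gram minors -/
theorem eval_aP {R F : Type} [CommRing R] [CommRing F] {N : ℕ} (q : Matrix (Fin N) (Fin N) R)
    (π : R →+* F) (V : Fin 3 → Fin N → F) :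
    eval₂ π (fun i => V (finProdFinEquiv.symm i).1 (finProdFinEquiv.symm i).2) (aP q) =
      D1 (q.map π) V * D2 (q.map π) V * D3 (q.map π) V := by
  have hV : (fun (c : Fin 3) (j : Fin N) => (eval₂Hom π
      (fun i => V (finProdFinEquiv.symm i).1 (finProdFinEquiv.symm i).2)) (vv R N c j)) = V := by
    funext c j
    rw [vv, coe_eval₂Hom, eval₂_X, Equiv.symm_apply_apply]
  have hq : (q.map C).map (eval₂Hom π
      (fun i : Fin (3 * N) => V (finProdFinEquiv.symm i).1 (finProdFinEquiv.symm i).2)) =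
        q.map π := by
    ext i j
    simp
  have := Pool.Agent.Helper11.QU.map_D1 (eval₂Hom π
      (fun i : Fin (3 * N) => V (finProdFinEquiv.symm i).1 (finProdFinEquiv.symm i).2))
      (q.map C) (vv R N)
  have h2 := Pool.Agent.Helper11.QU.map_D2 (eval₂Hom π
      (fun i : Fin (3 * N) => V (finProdFinEquiv.symm i).1 (finProdFinEquiv.symm i).2))
      (q.map C) (vv R N)
  have h3 := Pool.Agent.Helper11.QU.map_D3 (eval₂Hom π
      (fun i : Fin (3 * N) => V (finProdFinEquiv.symm i).1 (finProdFinEquiv.symm i).2))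
      (q.map C) (vv R N)
  rw [hV, hq] at this h2 h3
  rw [← coe_eval₂Hom, aP, map_mul, map_mul, this, h2, h3]

theorem minors_le {K R : Type} [Field K] [CharZero K] [CommRing R] [Algebra K R]
    {N : ℕ} (q : Matrix (Fin N) (Fin N) R) (hq : q.IsSymm) : Mi q ≤ (Co q).radical := by
  rw [Ideal.radical_eq_sInf]
  refine le_sInf fun p hp => ?_
  obtain ⟨hle, hpr⟩ := hp
  rw [Mi, Ideal.span_le]
  rintro _ ⟨⟨f, g⟩, rfl⟩
  by_contra hfg
  change (q.submatrix f g).det ∉ p at hfg
  set π : R →+* FractionRing (R ⧸ p) :=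
    (algebraMap (R ⧸ p) (FractionRing (R ⧸ p))).comp (Ideal.Quotient.mk p) with hπ
  have hker : ∀ a, π a = 0 ↔ a ∈ p := fun a => by
    rw [hπ, RingHom.comp_apply, map_eq_zero_iff _ (IsFractionRing.injective (R ⧸ p) _),
      Ideal.Quotient.eq_zero_iff_mem]
  haveI : CharZero (FractionRing (R ⧸ p)) :=
    charZero_of_injective_ringHom (π.comp (algebraMap K R)).injective
  have hd : ((q.map π).submatrix f g).det ≠ 0 := by
    rw [Matrix.submatrix_map, ← RingHom.mapMatrix_apply, ← RingHom.map_det, Ne, hker]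
    exact hfg
  obtain ⟨V, hV1, hV2⟩ := exists_three (q.map π) (hq.map π) f g hd
  obtain ⟨h1, h2, h3⟩ := Pool.Agent.Helper11.QU.D_ne_zero (q.map π) V hV1 hV2
  have h0 : eval₂ π (fun i => V (finProdFinEquiv.symm i).1 (finProdFinEquiv.symm i).2) (aP q) =
      0 := by
    rw [← eval_map]
    have : map π (aP q) = 0 := by
      ext d
      rw [coeff_map, coeff_zero, hker]
      exact hle (Ideal.subset_span ⟨d, rfl⟩)
    rw [this, map_zero]
  rw [eval_aP] at h0
  exact mul_ne_zero (mul_ne_zero h1 h2) h3 h0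

/-- **TQ1** -/
theorem coeff_pow {K R : Type} [Field K] [CharZero K] [CommRing R] [Algebra K R]
    [IsNoetherianRing R] {t : Ideal R} {N s : ℕ} (q : Matrix (Fin N) (Fin N) R) (hq : q.IsSymm)
    (hs : t ^ s ≤ Mi q) : ∃ s' : ℕ, t ^ s' ≤ Co q := by
  obtain ⟨n, hn⟩ := Ideal.exists_pow_le_of_le_radical_of_fg (minors_le (K := K) q hq)
    (IsNoetherian.noetherian (Mi q))
  refine ⟨s * n, ?_⟩
  rw [pow_mul]
  exact (Ideal.pow_right_mono hs n).trans hn

end Pool.Agent.Helper45.TQ
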